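import Mathlib

/-!
# Definitions for the planar equation `Δ u + p(|x|) q(e^u) = 4 π N δ`
-/

set_option autoImplicit false

namespace Pool.Agent.K4H56.RS

open MeasureTheory Laplacian InnerProductSpace Filter Topology Set

/-- The Euclidean plane. -/
abbrev Plane : Type := EuclideanSpace ℝ (Fin 2)

/-- The primitive `G₀(u) = ∫_{-∞}^u g` of `g`. -/
noncomputable def G0 (g : ℝ → ℝ) (u : ℝ) : ℝ := ∫ s in Iic u, g s

/-- The hypotheses (H1)-(H8) on the functions `f` and `g` on the real line. -/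
structure Hypotheses (f g : ℝ → ℝ) : Prop where
  /-- (H1) `f` is `C^1` -/
  h1f : ContDiff ℝ 1 f
  /-- (H1) `g` is `C^1` -/
  h1g : ContDiff ℝ 1 g
  /-- (H1) `∫_{-∞}^0 |t f(t)| dt < ∞` -/
  h1int : IntegrableOn (fun t => t * f t) (Iic 0)
  /-- (H1) `g` and `g'` are bounded -/
  h1bdd : ∃ C : ℝ, ∀ u : ℝ, |g u| + |deriv g u| ≤ C
  /-- (H2) `f` is positive -/
  h2pos : ∀ t, 0 < f t
  /-- (H2) `f` tends to infinity at infinity -/
  h2lim : Tendsto f atTop atTop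
  /-- (H2) `g(0) = 0` -/
  h2zero : g 0 = 0
  /-- (H2) `g` is positive on the negative half-line -/
  h2g : ∀ u : ℝ, u < 0 → 0 < g u
  /-- (H3) `f' ≥ 0` -/
  h3 : ∀ t, 0 ≤ deriv f t
  /-- (H4) for some `M > 0`: `g'(u) > 0` for `u < -M` and `∫_0^∞ f(t) g(-M t) dt < ∞` -/
  h4 : ∃ M : ℝ, 0 < M ∧ (∀ u : ℝ, u < -M → 0 < deriv g u) ∧
    IntegrableOn (fun t => f t * g (-(M * t))) (Ioi 0)
  /-- (H5) the integral of (H4) diverges for `M₀ = inf {M > 0 : ∫_0^∞ f(t) g(-M t) dt < ∞}` -/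
  h5a : ¬ IntegrableOn (fun t => f t *
    g (-(sInf {M : ℝ | 0 < M ∧ IntegrableOn (fun t => f t * g (-(M * t))) (Ioi 0)} * t))) (Ioi 0)
  /-- (H5) `inf_{t > 0} f(t - c) / f(t) > 0` for every `c > 0` -/
  h5b : ∀ c : ℝ, 0 < c → ∃ δ : ℝ, 0 < δ ∧ ∀ t : ℝ, 0 < t → δ ≤ f (t - c) / f t
  /-- (H6), (H7) The primitive `G₀` is finite, the limits `f₁ = lim_{t → ∞} f'(t) / f(t)` and
  `g₁ = lim_{u → -∞} G₀(u) / g(u)` exist and are finite, `f'(t) / f(t) ≥ f₁` for all `t`, and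
  `G₀(u) / g(u) ≥ g₁` for all `u < 0`. -/
  h67 : IntegrableOn g (Iic 0) ∧ ∃ f₁ g₁ : ℝ, Tendsto (fun t => deriv f t / f t) atTop (𝓝 f₁) ∧
    Tendsto (fun u => G0 g u / g u) atBot (𝓝 g₁) ∧
    (∀ t, f₁ ≤ deriv f t / f t) ∧ ∀ u : ℝ, u < 0 → g₁ ≤ G0 g u / g u
  /-- (H8) for some `δ > 0`, `g' ≤ 0` on `[-δ, 0]` -/
  h8 : ∃ δ : ℝ, 0 < δ ∧ ∀ u ∈ Icc (-δ) 0, deriv g u ≤ 0

/-- `u` is a negative solution of `Δ u + p(|x|) q(e^u) = 4 π N δ` on the plane, in the sense of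
distributions. The value of `u` at the origin is irrelevant. -/
structure IsNegativeSolution (N : ℝ) (p q : ℝ → ℝ) (u : Plane → ℝ) : Prop where
  /-- `u` is smooth on the plane without the origin -/
  smooth : ContDiffOn ℝ ((⊤ : ℕ∞) : WithTop ℕ∞) u {0}ᶜ
  /-- `u` is locally integrable -/
  locallyIntegrable : LocallyIntegrable u
  /-- the nonlinear term is locally integrable -/
  source : LocallyIntegrable (fun x => p ‖x‖ * q (Real.exp (u x)))
  /-- the equation holds in the sense of distributions -/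
  equation : ∀ φ : Plane → ℝ, ContDiff ℝ ((⊤ : ℕ∞) : WithTop ℕ∞) φ → HasCompactSupport φ →
    (∫ x, u x * Δ φ x) + (∫ x, p ‖x‖ * q (Real.exp (u x)) * φ x) = 4 * Real.pi * N * φ 0
  /-- `u` is negative on the plane without the origin -/
  negative : ∀ x : Plane, x ≠ 0 → u x < 0

/-- `u` (a function on the plane without the origin) is radially symmetric about the point `c`:
`u x` depends only on `|x - c|`. -/
def RadialAbout (c : Plane) (u : Plane → ℝ) : Prop :=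
  ∀ x y : Plane, x ≠ 0 → y ≠ 0 → ‖x - c‖ = ‖y - c‖ → u x = u y

end Pool.Agent.K4H56.RS
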