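import Pool.Agent.K4H56.RS.Sol

/-! The examples. -/

set_option autoImplicit false

namespace Pool.Agent.K4H56.RS

open MeasureTheory Laplacian InnerProductSpace Filter Topology Set
open Pool.Agent.H314.Dir Pool.Agent.H314.CS

/-- the point of the plane with a given complex coordinate -/
noncomputable def pz (z : ℂ) : Plane := !₂[z.re, z.im]

theorem cz_pz (z : ℂ) : cz (pz z) = z := by
  apply Complex.ext <;> simp [cz, pz]

theorem norm_sq_pz (z : ℂ) : ‖pz z‖ ^ 2 = Complex.normSq z := by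
  rw [← normSq_cz, cz_pz]

theorem norm_pz (z : ℂ) : ‖pz z‖ = ‖z‖ := by
  have h := norm_sq_pz z
  rw [Complex.normSq_eq_norm_sq] at h
  exact (sq_eq_sq₀ (norm_nonneg _) (norm_nonneg _)).1 h

theorem pz_sub (z w : ℂ) : pz z - pz w = pz (z - w) := by
  ext i
  fin_cases i <;> simp [pz]

theorem pz_cz (x : Plane) : pz (cz x) = x := by
  ext i
  fin_cases i <;> simp [pz, cz]

theorem pz_ne_zero {z : ℂ} (hz : z ≠ 0) : pz z ≠ 0 := by
  intro h
  have := norm_pz z
  rw [h, norm_zero] at this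
  exact hz (norm_eq_zero.1 this.symm)

theorem cz_ne_zero {x : Plane} (hx : x ≠ 0) : cz x ≠ 0 := by
  intro h
  have h1 := normSq_cz x
  rw [h, map_zero] at h1
  have := norm_pos_iff.2 hx
  nlinarith

/-! ### The case `N = 0` -/

/-- the small parameter for `N = 0` -/
noncomputable def e0 : ℝ := Real.exp (-(3 * Real.pi / 8)) / 2

theorem e0_pos : 0 < e0 := by unfold e0; positivity

theorem e0_sq : 8 * e0 ^ 2 = 2 * Real.exp (-(3 * Real.pi / 4)) := by
  unfold e0
  rw [div_pow, ← Real.exp_nat_mul]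
  have : ((2 : ℕ) : ℝ) * -(3 * Real.pi / 8) = -(3 * Real.pi / 4) := by push_cast; ring
  rw [this]; ring

/-- the harmonic part for `N = 0` -/
noncomputable def H0 (x : Plane) : ℝ := Real.log (8 * e0 ^ 2) + 2 * e0 * x 0

theorem lap_H0 (x : Plane) : lap H0 x = 0 := by
  have hC : ContDiff ℝ 2 H0 := by
    have h0 : ContDiff ℝ 2 (fun x : Plane => x 0) :=
      (EuclideanSpace.proj (𝕜 := ℝ) 0 : Plane →L[ℝ] ℝ).contDiff
    exact contDiff_const.add (contDiff_const.mul h0)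
  unfold lap
  refine Finset.sum_eq_zero fun i _ => ?_
  refine iteratedFDeriv_two_of_line
    (g := fun _ => 2 * e0 * (EuclideanSpace.single i (1 : ℝ) : Plane) 0) hC.contDiffAt ?_ ?_
  · refine Eventually.of_forall fun t => ?_
    have h1 : HasDerivAt (fun t : ℝ => H0 x + t * (2 * e0 * (EuclideanSpace.single i (1 : ℝ) : Plane) 0))
        (1 * (2 * e0 * (EuclideanSpace.single i (1 : ℝ) : Plane) 0)) t :=
      ((hasDerivAt_id t).mul_const _).const_add _
    rw [one_mul] at h1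
    refine h1.congr_of_eventuallyEq (Eventually.of_forall fun s => ?_)
    simp only [H0, PiLp.add_apply, PiLp.smul_apply, smul_eq_mul]
    ring
  · exact hasDerivAt_const _ _

theorem normSq_exp (z : ℂ) : Complex.normSq (Complex.exp z) = Real.exp (2 * z.re) := by
  rw [Complex.normSq_eq_norm_sq, Complex.norm_exp, ← Real.exp_nat_mul]
  push_cast
  ring_nf

theorem re_e0 (z : ℂ) : 2 * ((e0 : ℂ) * z).re = 2 * e0 * z.re := by
  simp [Complex.mul_re]; ring

theorem sol_zero : IsNegativeSolution (0 : ℕ) (fun _ => 1) q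
    (uu 0 H0 (fun z => Complex.exp ((e0 : ℂ) * z))) := by
  have hexp : ∀ z : ℂ, HasDerivAt (fun z => Complex.exp ((e0 : ℂ) * z))
      ((e0 : ℂ) * Complex.exp ((e0 : ℂ) * z)) z := by
    intro z
    have := ((hasDerivAt_id z).const_mul (e0 : ℂ)).cexp
    simpa [mul_comm] using this
  refine isNegativeSolution (F' := fun z => (e0 : ℂ) * Complex.exp ((e0 : ℂ) * z))
    (F'' := fun z => (e0 : ℂ) * ((e0 : ℂ) * Complex.exp ((e0 : ℂ) * z))) hexp
    (fun z => (hexp z).const_mul (e0 : ℂ)) ?_ lap_H0 ?_ ?_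
  · have h0 : ContDiff ℝ ((⊤ : ℕ∞) : WithTop ℕ∞) (fun x : Plane => x 0) :=
      (EuclideanSpace.proj (𝕜 := ℝ) 0 : Plane →L[ℝ] ℝ).contDiff
    exact contDiff_const.add (contDiff_const.mul h0)
  · intro x _
    have h8 : (0 : ℝ) < 8 * e0 ^ 2 := by have := e0_pos; positivity
    rw [mul_zero, pow_zero, one_mul, H0, Real.exp_add, Real.exp_log h8, map_mul,
      Complex.normSq_ofReal, normSq_exp, re_e0]
    simp only [cz]
    ring
  · intro z
    rw [map_mul, Complex.normSq_ofReal, normSq_exp]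
    set t := Real.exp (2 * ((e0 : ℂ) * z).re) with ht
    have htp : 0 < t := Real.exp_pos _
    rw [div_le_iff₀ (by positivity)]
    have h1 : 8 * (e0 * e0 * t) = 2 * Real.exp (-(3 * Real.pi / 4)) * t := by
      rw [← e0_sq]; ring
    rw [h1]
    have h2 : 0 < Real.exp (-(3 * Real.pi / 4)) := Real.exp_pos _
    have h3 : 2 * t ≤ (1 + t) ^ 2 := by nlinarith
    nlinarith

theorem uu_zero (x : Plane) : Real.exp (uu 0 H0 (fun z => Complex.exp ((e0 : ℂ) * z)) x) =
    8 * e0 ^ 2 * Real.exp (2 * e0 * x 0) / (1 + Real.exp (2 * e0 * x 0)) ^ 2 := by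
  have h8 : (0 : ℝ) < 8 * e0 ^ 2 := by have := e0_pos; positivity
  unfold uu
  rw [Nat.cast_zero, mul_zero, zero_mul, zero_add, Real.exp_sub, H0, Real.exp_add, Real.exp_log h8,
    normSq_exp, re_e0]
  simp only [cz]
  have hpos : 0 < 1 + Real.exp (2 * e0 * x 0) := by positivity
  have e2 : Real.exp (2 * Real.log (1 + Real.exp (2 * e0 * x 0))) =
      (1 + Real.exp (2 * e0 * x 0)) ^ 2 := by
    have : 2 * Real.log (1 + Real.exp (2 * e0 * x 0)) =
        Real.log ((1 + Real.exp (2 * e0 * x 0)) ^ 2) := by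
      rw [Real.log_pow]; push_cast; ring
    rw [this, Real.exp_log (by positivity)]
  rw [e2]

theorem inj_zero {a b : ℝ} (h : Real.exp a / (1 + Real.exp a) ^ 2 = Real.exp b / (1 + Real.exp b) ^ 2) :
    a = b ∨ a = -b := by
  have ha := Real.exp_pos a
  have hb := Real.exp_pos b
  rw [div_eq_div_iff (by positivity) (by positivity)] at h
  have h1 : (Real.exp a - Real.exp b) * (1 - Real.exp a * Real.exp b) = 0 := by nlinarith
  rcases mul_eq_zero.1 h1 with h2 | h2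
  · left
    exact Real.exp_injective (by linarith)
  · right
    have h3 : Real.exp (a + b) = Real.exp 0 := by rw [Real.exp_add, Real.exp_zero]; linarith
    have := Real.exp_injective h3
    linarith

theorem not_radial_zero (c : Plane) :
    ¬ RadialAbout c (uu 0 H0 (fun z => Complex.exp ((e0 : ℂ) * z))) := by
  intro h
  set R : ℝ := 2 * |c 0| + |c 1| + 1 with hR
  have h0 := abs_nonneg (c 0)
  have h1 := abs_nonneg (c 1)
  have hRp : 0 < R := by positivity
  have l0 := neg_abs_le (c 0)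
  have l1 := neg_abs_le (c 1)
  have u0 := le_abs_self (c 0)
  set x : Plane := c + EuclideanSpace.single 0 R with hx
  set y : Plane := c + EuclideanSpace.single 1 R with hy
  have x0 : x 0 = c 0 + R := by simp [hx]
  have y0 : y 0 = c 0 := by simp [hy]
  have y1 : y 1 = c 1 + R := by simp [hy]
  have hx0 : x ≠ 0 := by
    intro h
    have : x 0 = 0 := by rw [h]; rfl
    rw [x0] at this
    linarith
  have hy0 : y ≠ 0 := by
    intro h
    have : y 1 = 0 := by rw [h]; rfl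
    rw [y1] at this
    linarith
  have hn : ‖x - c‖ = ‖y - c‖ := by
    simp [hx, hy]
  have h2 := congrArg Real.exp (h x y hx0 hy0 hn)
  rw [uu_zero, uu_zero, mul_div_assoc, mul_div_assoc, x0, y0] at h2
  have h8 : (8 * e0 ^ 2 : ℝ) ≠ 0 := by have := e0_pos; positivity
  have h3 := inj_zero (mul_left_cancel₀ h8 h2)
  have he := e0_pos
  rcases h3 with h3 | h3
  · have : 2 * e0 * R = 0 := by linarith
    have : 0 < 2 * e0 * R := by positivity
    linarith
  · have h4 : 2 * e0 * (2 * c 0 + R) = 0 := by linarith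
    have h5 : 0 < 2 * c 0 + R := by linarith
    have : 0 < 2 * e0 * (2 * c 0 + R) := by positivity
    linarith

/-! ### The case `N ≥ 1`; here `m = N + 1` -/

/-- the small parameter -/
noncomputable def eN (N : ℕ) : ℝ := Real.exp (-(3 * Real.pi / 8)) / (8 * ((N : ℝ) + 1))

theorem eN_pos (N : ℕ) : 0 < eN N := by unfold eN; positivity

theorem eN_le (N : ℕ) : eN N ≤ 1 / 8 := by
  unfold eN
  have h1 : Real.exp (-(3 * Real.pi / 8)) ≤ 1 := Real.exp_le_one_iff.2 (by linarith [Real.pi_pos])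
  rw [div_le_div_iff₀ (by positivity) (by norm_num)]
  have : (0 : ℝ) ≤ N := Nat.cast_nonneg N
  nlinarith [Real.exp_pos (-(3 * Real.pi / 8))]

theorem eN_sq (N : ℕ) : 32 * ((N : ℝ) + 1) ^ 2 * eN N ^ 2 ≤ Real.exp (-(3 * Real.pi / 4)) := by
  have h : eN N ^ 2 = Real.exp (-(3 * Real.pi / 4)) / (64 * ((N : ℝ) + 1) ^ 2) := by
    unfold eN
    rw [div_pow, ← Real.exp_nat_mul]
    have : ((2 : ℕ) : ℝ) * -(3 * Real.pi / 8) = -(3 * Real.pi / 4) := by push_cast; ring
    rw [this]; ring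
  rw [h]
  have h2 : 0 < Real.exp (-(3 * Real.pi / 4)) := Real.exp_pos _
  have h3 : 0 < ((N : ℝ) + 1) ^ 2 := by positivity
  have : 32 * ((N : ℝ) + 1) ^ 2 * (Real.exp (-(3 * Real.pi / 4)) / (64 * ((N : ℝ) + 1) ^ 2)) =
      Real.exp (-(3 * Real.pi / 4)) / 2 := by
    field_simp
    ring
  rw [this]
  linarith

/-- `κ = ε ^ m` -/
noncomputable def kN (N : ℕ) : ℝ := eN N ^ (N + 1)

theorem kN_pos (N : ℕ) : 0 < kN N := pow_pos (eN_pos N) _

theorem kN_sq_le (N : ℕ) : kN N ^ 2 ≤ 1 / 2 := by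
  have h1 : kN N ≤ 1 / 8 := by
    unfold kN
    calc eN N ^ (N + 1) ≤ eN N ^ 1 :=
          pow_le_pow_of_le_one (eN_pos N).le (by linarith [eN_le N]) (by omega)
      _ ≤ 1 / 8 := by rw [pow_one]; exact eN_le N
  nlinarith [kN_pos N]

/-- the function `F` -/
noncomputable def FN (N : ℕ) (z : ℂ) : ℂ := (kN N : ℂ) * (z ^ (N + 1) - 1)

/-- the constant `H` -/
noncomputable def HN (N : ℕ) (_ : Plane) : ℝ := Real.log (8 * kN N ^ 2 * ((N : ℝ) + 1) ^ 2)

theorem normSq_FN (N : ℕ) (z : ℂ) : Complex.normSq (FN N z) =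
    kN N ^ 2 * Complex.normSq (z ^ (N + 1) - 1) := by
  rw [FN, map_mul, Complex.normSq_ofReal]; ring

/-- lower bound for the denominator -/
theorem den_ge (N : ℕ) (z : ℂ) : (1 / 2) * (1 + kN N ^ 2 * (‖z‖ ^ 2) ^ (N + 1)) ≤
    1 + Complex.normSq (FN N z) := by
  rw [normSq_FN, Complex.normSq_eq_norm_sq]
  have h1 : ‖z‖ ^ (N + 1) ≤ ‖z ^ (N + 1) - 1‖ + 1 := by
    have := norm_add_le (z ^ (N + 1) - 1) 1
    rw [sub_add_cancel, norm_one, norm_pow] at this
    exact this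
  have h2 : (‖z‖ ^ 2) ^ (N + 1) = (‖z‖ ^ (N + 1)) ^ 2 := by ring
  rw [h2]
  set a := ‖z‖ ^ (N + 1) with ha
  set b := ‖z ^ (N + 1) - 1‖ with hb
  have ha0 : 0 ≤ a := by positivity
  have hb0 : 0 ≤ b := norm_nonneg _
  have h3 : a ^ 2 ≤ 2 * b ^ 2 + 2 := by nlinarith [sq_nonneg (b - 1)]
  have hk := kN_sq_le N
  have hk0 : 0 ≤ kN N ^ 2 := by positivity
  nlinarith

theorem pow_le_one_add {t : ℝ} (ht : 0 ≤ t) (N : ℕ) : t ^ N ≤ 1 + t ^ (N + 1) := by
  rcases le_total t 1 with h | h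
  · have := pow_le_one₀ (n := N) ht h
    have h2 : 0 ≤ t ^ (N + 1) := by positivity
    linarith
  · have h1 : t ^ N ≤ t ^ (N + 1) := pow_le_pow_right₀ h (by omega)
    linarith

theorem bound_FN (N : ℕ) (z : ℂ) :
    8 * Complex.normSq ((kN N : ℂ) * (((N : ℂ) + 1) * z ^ N)) / (1 + Complex.normSq (FN N z)) ^ 2 ≤
      Real.exp (-(3 * Real.pi / 4)) := by
  have hden := den_ge N z
  have hk0 : 0 ≤ kN N ^ 2 * (‖z‖ ^ 2) ^ (N + 1) := by positivity
  have hpos : 0 < 1 + Complex.normSq (FN N z) := by linarith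
  have hnum : Complex.normSq ((kN N : ℂ) * (((N : ℂ) + 1) * z ^ N)) =
      ((N : ℝ) + 1) ^ 2 * (eN N ^ 2 * (eN N ^ 2 * ‖z‖ ^ 2) ^ N) := by
    rw [map_mul, map_mul, Complex.normSq_ofReal, map_pow, Complex.normSq_eq_norm_sq z]
    have : Complex.normSq ((N : ℂ) + 1) = ((N : ℝ) + 1) ^ 2 := by
      have : ((N : ℂ) + 1) = (((N : ℝ) + 1 : ℝ) : ℂ) := by push_cast; rfl
      rw [this, Complex.normSq_ofReal]; ring
    rw [this, kN]
    ring
  have hpow : kN N ^ 2 * (‖z‖ ^ 2) ^ (N + 1) = (eN N ^ 2 * ‖z‖ ^ 2) ^ (N + 1) := by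
    rw [kN]; ring
  rw [hpow] at hden
  set t := eN N ^ 2 * ‖z‖ ^ 2 with ht
  have ht0 : 0 ≤ t := by positivity
  have h1 := pow_le_one_add ht0 N
  set s := t ^ (N + 1) with hs
  have hs0 : 0 ≤ s := by positivity
  rw [hnum, div_le_iff₀ (by positivity)]
  have h2 : (1 / 4) * (1 + s) ^ 2 ≤ (1 + Complex.normSq (FN N z)) ^ 2 := by nlinarith
  have h3 : (1 + s) ≤ (1 + s) ^ 2 := by nlinarith
  have h4 := eN_sq N
  have h5 : 0 < Real.exp (-(3 * Real.pi / 4)) := Real.exp_pos _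
  have h6 : 0 ≤ 32 * ((N : ℝ) + 1) ^ 2 * eN N ^ 2 := by positivity
  calc 8 * (((N : ℝ) + 1) ^ 2 * (eN N ^ 2 * t ^ N))
      = 32 * ((N : ℝ) + 1) ^ 2 * eN N ^ 2 * ((1 / 4) * t ^ N) := by ring
    _ ≤ 32 * ((N : ℝ) + 1) ^ 2 * eN N ^ 2 * ((1 / 4) * (1 + s) ^ 2) := by
        apply mul_le_mul_of_nonneg_left _ h6
        linarith
    _ ≤ Real.exp (-(3 * Real.pi / 4)) * ((1 / 4) * (1 + s) ^ 2) := by
        apply mul_le_mul_of_nonneg_right h4
        positivity
    _ ≤ Real.exp (-(3 * Real.pi / 4)) * (1 + Complex.normSq (FN N z)) ^ 2 := by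
        apply mul_le_mul_of_nonneg_left h2 h5.le

theorem lap_HN (N : ℕ) (x : Plane) : lap (HN N) x = 0 := lap_const _ _

theorem hasDeriv_FN (N : ℕ) (z : ℂ) :
    HasDerivAt (FN N) ((kN N : ℂ) * (((N : ℂ) + 1) * z ^ N)) z := by
  have := (((hasDerivAt_pow (N + 1) z).sub_const 1).const_mul (kN N : ℂ))
  refine this.congr_deriv ?_
  push_cast
  simp

theorem hH_N (N : ℕ) (x : Plane) : ‖x‖ ^ (2 * N) * Real.exp (HN N x) =
    8 * Complex.normSq ((kN N : ℂ) * (((N : ℂ) + 1) * (cz x) ^ N)) := by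
  have hk := kN_pos N
  rw [HN, Real.exp_log (by positivity), map_mul, map_mul, Complex.normSq_ofReal, map_pow,
    normSq_cz]
  have : Complex.normSq ((N : ℂ) + 1) = ((N : ℝ) + 1) ^ 2 := by
    have : ((N : ℂ) + 1) = (((N : ℝ) + 1 : ℝ) : ℂ) := by push_cast; rfl
    rw [this, Complex.normSq_ofReal]; ring
  rw [this]
  ring

theorem sol_N (N : ℕ) : IsNegativeSolution N (fun _ => 1) q (uu N (HN N) (FN N)) := by
  refine isNegativeSolution (F' := fun z => (kN N : ℂ) * (((N : ℂ) + 1) * z ^ N))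
    (F'' := fun z => (kN N : ℂ) * (((N : ℂ) + 1) * ((N : ℂ) * z ^ (N - 1)))) (hasDeriv_FN N)
    (fun z => ?_) contDiff_const (lap_HN N) (fun x _ => hH_N N x) (bound_FN N)
  exact (((hasDerivAt_pow N z).const_mul ((N : ℂ) + 1)).const_mul (kN N : ℂ))

theorem uu_le (N : ℕ) (x : Plane) :
    uu N (HN N) (FN N) x ≤ 2 * (N : ℝ) * Real.log ‖x‖ + HN N 0 := by
  unfold uu
  have : 0 ≤ Real.log (1 + Complex.normSq (FN N (cz x))) :=
    Real.log_nonneg (by linarith [Complex.normSq_nonneg (FN N (cz x))])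
  have h2 : HN N x = HN N 0 := rfl
  rw [h2]
  linarith

theorem not_radial_N (N : ℕ) (hN : 1 ≤ N) (c : Plane) :
    ¬ RadialAbout c (uu N (HN N) (FN N)) := by
  intro h
  have hN0 : (0 : ℝ) < N := by exact_mod_cast hN
  by_cases hc : c = 0
  · -- compare the points `1` and `exp (π i / m)`
    subst hc
    set w : ℂ := Complex.exp ((((Real.pi / ((N : ℝ) + 1)) : ℝ) : ℂ) * Complex.I) with hw
    have hwn : ‖w‖ = 1 := Complex.norm_exp_ofReal_mul_I _
    have hwp : w ^ (N + 1) = -1 := by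
      rw [hw, ← Complex.exp_nat_mul]
      have h1 : ((N + 1 : ℕ) : ℂ) * ((((Real.pi / ((N : ℝ) + 1)) : ℝ) : ℂ) * Complex.I) =
          Real.pi * Complex.I := by
        have : ((N : ℂ) + 1) ≠ 0 := by exact_mod_cast Nat.succ_ne_zero N
        push_cast
        field_simp
      rw [h1, Complex.exp_pi_mul_I]
    have hw0 : w ≠ 0 := Complex.exp_ne_zero _
    have h1 := h (pz 1) (pz w) (pz_ne_zero one_ne_zero) (pz_ne_zero hw0)
      (by rw [sub_zero, sub_zero, norm_pz, norm_pz, hwn, norm_one])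
    unfold uu at h1
    rw [norm_pz, norm_pz, hwn, norm_one, cz_pz, cz_pz, normSq_FN, normSq_FN, hwp, one_pow] at h1
    have e1 : HN N (pz 1) = HN N (pz w) := rfl
    rw [e1] at h1
    have e2 : Complex.normSq ((1 : ℂ) - 1) = 0 := by simp
    have e3 : Complex.normSq ((-1 : ℂ) - 1) = 4 := by norm_num [Complex.normSq_apply]
    rw [e2, e3, mul_zero, add_zero, Real.log_one] at h1
    have h2 : Real.log (1 + kN N ^ 2 * 4) = 0 := by linarith
    have hk := kN_pos N
    have h3 : 0 < Real.log (1 + kN N ^ 2 * 4) := Real.log_pos (by nlinarith)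
    linarith
  · -- points of the circle about `c` through the origin which tend to the origin
    set b : ℂ := cz c with hb
    have hb0 : b ≠ 0 := cz_ne_zero hc
    set u0 := uu N (HN N) (FN N) (pz (2 * b)) with hu0
    have hy0 : (2 * b : ℂ) ≠ 0 := mul_ne_zero two_ne_zero hb0
    have hyc : ‖pz (2 * b) - c‖ = ‖b‖ := by
      rw [← pz_cz c, ← hb, pz_sub, norm_pz]
      congr 1
      ring
    set r : ℝ := Real.exp ((u0 - HN N 0) / (2 * (N : ℝ))) with hr
    have hrp : 0 < r := Real.exp_pos _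
    have hcont : Tendsto (fun θ : ℝ => ‖b * (1 - Complex.exp ((θ : ℂ) * Complex.I))‖) (𝓝[>] 0)
        (𝓝 0) := by
      have h1 : Continuous (fun θ : ℝ => ‖b * (1 - Complex.exp ((θ : ℂ) * Complex.I))‖) := by
        fun_prop
      have h2 := h1.tendsto 0
      simp only [Complex.ofReal_zero, zero_mul, Complex.exp_zero, sub_self, mul_zero,
        norm_zero] at h2
      exact h2.mono_left nhdsWithin_le_nhds
    have hev := hcont.eventually (gt_mem_nhds hrp)
    have hev2 : ∀ᶠ θ : ℝ in 𝓝[>] 0, θ ∈ Ioo (0 : ℝ) 1 :=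
      Ioo_mem_nhdsGT one_pos
    obtain ⟨θ, hθ1, hθ2⟩ := (hev.and hev2).exists
    set z : ℂ := b * (1 - Complex.exp ((θ : ℂ) * Complex.I)) with hz
    have hz0 : z ≠ 0 := by
      intro h0
      rcases mul_eq_zero.1 h0 with h1 | h1
      · exact hb0 h1
      · have h2 : Complex.exp ((θ : ℂ) * Complex.I) = 1 := by
          linear_combination -h1
        have h3 := congrArg Complex.im h2
        rw [Complex.exp_ofReal_mul_I_im, Complex.one_im] at h3
        have h4 : 0 < Real.sin θ :=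
          Real.sin_pos_of_pos_of_lt_pi hθ2.1 (by linarith [hθ2.2, Real.pi_gt_three])
        linarith
    have hzc : ‖pz z - c‖ = ‖b‖ := by
      rw [← pz_cz c, ← hb, pz_sub, norm_pz, hz]
      have : b * (1 - Complex.exp ((θ : ℂ) * Complex.I)) - b =
          -(b * Complex.exp ((θ : ℂ) * Complex.I)) := by ring
      rw [this, norm_neg, norm_mul, Complex.norm_exp_ofReal_mul_I, mul_one]
    have h1 := h (pz z) (pz (2 * b)) (pz_ne_zero hz0) (pz_ne_zero hy0) (by rw [hzc, hyc])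
    have h2 := uu_le N (pz z)
    rw [h1, norm_pz] at h2
    have h3 : Real.log ‖z‖ < (u0 - HN N 0) / (2 * (N : ℝ)) := by
      rw [Real.log_lt_iff_lt_exp (norm_pos_iff.2 hz0)]
      exact hθ1
    rw [lt_div_iff₀ (by positivity)] at h3
    linarith

/-- finite mass in the case `N ≥ 1` -/
theorem integrable_N (N : ℕ) (hN : 1 ≤ N) :
    Integrable (fun x : Plane => (1 : ℝ) * q (Real.exp (uu N (HN N) (FN N) x))) := by
  have hsol := sol_N N
  have hcoe : ∀ x : Plane, x ≠ 0 → Real.exp (uu N (HN N) (FN N) x) =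
      8 * Complex.normSq ((kN N : ℂ) * (((N : ℂ) + 1) * (cz x) ^ N)) /
        (1 + Complex.normSq (FN N (cz x))) ^ 2 := fun x hx =>
    exp_uu (F' := fun z => (kN N : ℂ) * (((N : ℂ) + 1) * z ^ N)) (fun x _ => hH_N N x) hx
  have hval : ∀ x : Plane, x ≠ 0 → (1 : ℝ) * q (Real.exp (uu N (HN N) (FN N) x)) =
      Real.exp (uu N (HN N) (FN N) x) := by
    intro x hx
    have h1 := bound_FN N (cz x)
    rw [← hcoe x hx] at h1
    rw [one_mul, q_exp, g_of_le (Real.exp_le_exp.1 h1)]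
  have hae : ∀ᵐ x : Plane, x ≠ 0 := by
    rw [ae_iff]; simp
  -- the bound by `C (1 + ‖x‖) ^ (-4)`
  have hk := kN_pos N
  set C : ℝ := 32 * ((N : ℝ) + 1) ^ 2 * (kN N ^ 2 + (kN N ^ 2)⁻¹) * 16 with hC
  have hbd : ∀ x : Plane, x ≠ 0 → Real.exp (uu N (HN N) (FN N) x) ≤ C * (1 + ‖x‖) ^ (-(4 : ℝ)) := by
    intro x hx
    rw [hcoe x hx]
    have hden := den_ge N (cz x)
    have hzx : ‖cz x‖ ^ 2 = ‖x‖ ^ 2 := by rw [← Complex.normSq_eq_norm_sq, normSq_cz]
    rw [hzx] at hden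
    have hnum : Complex.normSq ((kN N : ℂ) * (((N : ℂ) + 1) * (cz x) ^ N)) =
        ((N : ℝ) + 1) ^ 2 * kN N ^ 2 * (‖x‖ ^ 2) ^ N := by
      have := hH_N N x
      rw [HN, Real.exp_log (by positivity)] at this
      rw [← pow_mul]
      linarith
    rw [hnum]
    set r := ‖x‖ with hr
    have hr0 : 0 ≤ r := norm_nonneg _
    set P := (r ^ 2) ^ (N + 1) with hP
    have hP0 : 0 ≤ P := by positivity
    have hden2 : 0 < 1 + kN N ^ 2 * P := by positivity
    have hpow4 : (1 + r) ^ (-(4 : ℝ)) = ((1 + r) ^ 4)⁻¹ := by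
      rw [Real.rpow_neg (by positivity)]
      norm_cast
    rw [hpow4]
    have hstep : 8 * (((N : ℝ) + 1) ^ 2 * kN N ^ 2 * (r ^ 2) ^ N) /
        (1 + Complex.normSq (FN N (cz x))) ^ 2 ≤
        32 * ((N : ℝ) + 1) ^ 2 * (kN N ^ 2 * (r ^ 2) ^ N / (1 + kN N ^ 2 * P) ^ 2) := by
      have h1 : (1 + kN N ^ 2 * P) ^ 2 / 4 ≤ (1 + Complex.normSq (FN N (cz x))) ^ 2 := by
        nlinarith
      rw [div_le_iff₀ (by nlinarith [sq_nonneg (1 + kN N ^ 2 * P), hden2])]
      have h2 : 0 ≤ 32 * ((N : ℝ) + 1) ^ 2 * (kN N ^ 2 * (r ^ 2) ^ N / (1 + kN N ^ 2 * P) ^ 2) := by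
        positivity
      refine le_trans (le_of_eq ?_) (mul_le_mul_of_nonneg_left h1 h2)
      field_simp
      ring
    refine hstep.trans ?_
    have hmain : kN N ^ 2 * (r ^ 2) ^ N / (1 + kN N ^ 2 * P) ^ 2 ≤
        (kN N ^ 2 + (kN N ^ 2)⁻¹) * 16 * ((1 + r) ^ 4)⁻¹ := by
      rcases le_total r 1 with h | h
      · have h1 : (r ^ 2) ^ N ≤ 1 := pow_le_one₀ (by positivity) (pow_le_one₀ hr0 h)
        have h2 : kN N ^ 2 * (r ^ 2) ^ N / (1 + kN N ^ 2 * P) ^ 2 ≤ kN N ^ 2 := by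
          rw [div_le_iff₀ (by positivity)]
          have h3 : 1 ≤ (1 + kN N ^ 2 * P) ^ 2 := by
            have : 0 ≤ kN N ^ 2 * P := by positivity
            nlinarith
          have h4 : kN N ^ 2 * (r ^ 2) ^ N ≤ kN N ^ 2 * 1 := by gcongr
          have h5 : 0 < kN N ^ 2 := by positivity
          nlinarith
        have h3 : (1 + r) ^ 4 ≤ 16 := by
          calc (1 + r) ^ 4 ≤ (1 + 1) ^ 4 := by gcongr
            _ = 16 := by norm_num
        have h4 : 1 ≤ 16 * ((1 + r) ^ 4)⁻¹ := by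
          rw [← div_eq_mul_inv, le_div_iff₀ (by positivity)]
          linarith
        have h5 : 0 < (kN N ^ 2)⁻¹ := by positivity
        have h6 : 0 < kN N ^ 2 := by positivity
        calc kN N ^ 2 * (r ^ 2) ^ N / (1 + kN N ^ 2 * P) ^ 2 ≤ kN N ^ 2 := h2
          _ ≤ (kN N ^ 2 + (kN N ^ 2)⁻¹) * 1 := by linarith
          _ ≤ (kN N ^ 2 + (kN N ^ 2)⁻¹) * (16 * ((1 + r) ^ 4)⁻¹) := by gcongr
          _ = _ := by ring
      · have hr1 : 0 < r := by linarith
        have h2 : kN N ^ 2 * (r ^ 2) ^ N / (1 + kN N ^ 2 * P) ^ 2 ≤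
            kN N ^ 2 * (r ^ 2) ^ N / (kN N ^ 2 * P) ^ 2 := by
          apply div_le_div_of_nonneg_left (by positivity) (by positivity)
          have : 0 ≤ kN N ^ 2 * P := by positivity
          nlinarith
        have h3 : kN N ^ 2 * (r ^ 2) ^ N / (kN N ^ 2 * P) ^ 2 =
            (kN N ^ 2)⁻¹ * ((r ^ 2) ^ (N + 2))⁻¹ := by
          rw [hP]
          have : (r ^ 2) ≠ 0 := by positivity
          field_simp
          ring
        have h4 : (r ^ 2) ^ 2 ≤ (r ^ 2) ^ (N + 2) :=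
          pow_le_pow_right₀ (by nlinarith) (by omega)
        have h5 : ((r ^ 2) ^ (N + 2))⁻¹ ≤ 16 * ((1 + r) ^ 4)⁻¹ := by
          have h6 : (1 + r) ^ 4 ≤ 16 * (r ^ 2) ^ 2 := by
            calc (1 + r) ^ 4 ≤ (r + r) ^ 4 := by gcongr
              _ = 16 * (r ^ 2) ^ 2 := by ring
          rw [← div_eq_mul_inv, le_div_iff₀ (by positivity), ← div_eq_inv_mul,
            div_le_iff₀ (by positivity)]
          linarith
        have h6 : 0 < kN N ^ 2 := by positivity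
        rw [h3] at h2
        calc kN N ^ 2 * (r ^ 2) ^ N / (1 + kN N ^ 2 * P) ^ 2
            ≤ (kN N ^ 2)⁻¹ * ((r ^ 2) ^ (N + 2))⁻¹ := h2
          _ ≤ (kN N ^ 2)⁻¹ * (16 * ((1 + r) ^ 4)⁻¹) := by gcongr
          _ ≤ (kN N ^ 2 + (kN N ^ 2)⁻¹) * (16 * ((1 + r) ^ 4)⁻¹) := by
              gcongr
              linarith
          _ = _ := by ring
    calc 32 * ((N : ℝ) + 1) ^ 2 * (kN N ^ 2 * (r ^ 2) ^ N / (1 + kN N ^ 2 * P) ^ 2)
        ≤ 32 * ((N : ℝ) + 1) ^ 2 * ((kN N ^ 2 + (kN N ^ 2)⁻¹) * 16 * ((1 + r) ^ 4)⁻¹) := by gcongr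
      _ = C * ((1 + r) ^ 4)⁻¹ := by rw [hC]; ring
  have hint : Integrable (fun x : Plane => C * (1 + ‖x‖) ^ (-(4 : ℝ))) := by
    refine Integrable.const_mul ?_ C
    exact integrable_one_add_norm (by simp; norm_num)
  refine Integrable.mono' hint hsol.source.aestronglyMeasurable ?_
  filter_upwards [hae] with x hx
  rw [hval x hx, Real.norm_eq_abs, abs_of_pos (Real.exp_pos _)]
  exact hbd x hx

end Pool.Agent.K4H56.RS
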