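import Pool.Agent.K4H56.RS.Defs

/-! The nonlinearity `g`: equal to `e^u` for `u ≤ -3π/4` and to a multiple of `-sin u` after. -/

set_option autoImplicit false

namespace Pool.Agent.K4H56.RS

open MeasureTheory Filter Topology Set

/-- the constant `√2 e^{-3π/4}` -/
noncomputable def A : ℝ := Real.sqrt 2 * Real.exp (-(3 * Real.pi / 4))

/-- the nonlinearity -/
noncomputable def g (u : ℝ) : ℝ :=
  if u ≤ -(3 * Real.pi / 4) then Real.exp u else -(A * Real.sin u)

/-- its derivative -/
noncomputable def g' (u : ℝ) : ℝ :=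
  if u ≤ -(3 * Real.pi / 4) then Real.exp u else -(A * Real.cos u)

lemma A_pos : 0 < A := by unfold A; positivity

lemma sin34 : Real.sin (-(3 * Real.pi / 4)) = -(Real.sqrt 2 / 2) := by
  have h : -(3 * Real.pi / 4) = Real.pi / 4 - Real.pi := by ring
  rw [h, Real.sin_sub_pi, Real.sin_pi_div_four]

lemma cos34 : Real.cos (-(3 * Real.pi / 4)) = -(Real.sqrt 2 / 2) := by
  have h : -(3 * Real.pi / 4) = Real.pi / 4 - Real.pi := by ring
  rw [h, Real.cos_sub_pi, Real.cos_pi_div_four]

lemma A_mul : A * (Real.sqrt 2 / 2) = Real.exp (-(3 * Real.pi / 4)) := by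
  have h : Real.sqrt 2 * Real.sqrt 2 = 2 := Real.mul_self_sqrt (by norm_num)
  unfold A
  calc Real.sqrt 2 * Real.exp (-(3 * Real.pi / 4)) * (Real.sqrt 2 / 2)
      = (Real.sqrt 2 * Real.sqrt 2) / 2 * Real.exp (-(3 * Real.pi / 4)) := by ring
    _ = _ := by rw [h]; ring

lemma glue0 : Real.exp (-(3 * Real.pi / 4)) = -(A * Real.sin (-(3 * Real.pi / 4))) := by
  rw [sin34]; linarith [A_mul]

lemma glue1 : Real.exp (-(3 * Real.pi / 4)) = -(A * Real.cos (-(3 * Real.pi / 4))) := by
  rw [cos34]; linarith [A_mul]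

lemma g_of_le {u : ℝ} (h : u ≤ -(3 * Real.pi / 4)) : g u = Real.exp u := if_pos h

lemma g_of_ge {u : ℝ} (h : -(3 * Real.pi / 4) ≤ u) : g u = -(A * Real.sin u) := by
  rcases h.eq_or_lt with h | h
  · rw [← h, g_of_le le_rfl, glue0]
  · exact if_neg (not_le.2 h)

lemma g'_of_le {u : ℝ} (h : u ≤ -(3 * Real.pi / 4)) : g' u = Real.exp u := if_pos h

lemma g'_of_ge {u : ℝ} (h : -(3 * Real.pi / 4) ≤ u) : g' u = -(A * Real.cos u) := by
  rcases h.eq_or_lt with h | h
  · rw [← h, g'_of_le le_rfl, glue1]
  · exact if_neg (not_le.2 h)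

lemma hasDerivAt_g (u : ℝ) : HasDerivAt g (g' u) u := by
  have hr : ∀ x, HasDerivAt (fun u => -(A * Real.sin u)) (-(A * Real.cos x)) x := fun x =>
    ((Real.hasDerivAt_sin x).const_mul A).neg
  rcases lt_trichotomy u (-(3 * Real.pi / 4)) with h | h | h
  · rw [g'_of_le h.le]
    refine (Real.hasDerivAt_exp u).congr_of_eventuallyEq ?_
    filter_upwards [Iic_mem_nhds h] with x hx using g_of_le hx
  · have h1 : HasDerivWithinAt g (g' u) (Iic u) u := by
      rw [g'_of_le h.le]
      refine (Real.hasDerivAt_exp u).hasDerivWithinAt.congr (fun x hx => g_of_le ?_) (g_of_le h.le)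
      rw [← h]; exact hx
    have h2 : HasDerivWithinAt g (g' u) (Ici u) u := by
      rw [g'_of_ge h.ge]
      refine (hr u).hasDerivWithinAt.congr (fun x hx => g_of_ge ?_) (g_of_ge h.ge)
      rw [← h]; exact hx
    have h3 := h1.union h2
    rwa [Iic_union_Ici, hasDerivWithinAt_univ] at h3
  · rw [g'_of_ge h.le]
    refine (hr u).congr_of_eventuallyEq ?_
    filter_upwards [Ici_mem_nhds h] with x hx using g_of_ge hx

lemma deriv_g : deriv g = g' := funext fun u => (hasDerivAt_g u).deriv

lemma continuous_g' : Continuous g' := by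
  refine Continuous.if_le Real.continuous_exp (by fun_prop) continuous_id continuous_const ?_
  intro x hx
  have hx' : x = -(3 * Real.pi / 4) := hx
  rw [hx', glue1]

lemma continuous_g : Continuous g :=
  continuous_iff_continuousAt.2 fun u => (hasDerivAt_g u).continuousAt

lemma contDiff_g : ContDiff ℝ 1 g := by
  rw [contDiff_one_iff_deriv]
  exact ⟨fun u => (hasDerivAt_g u).differentiableAt, by rw [deriv_g]; exact continuous_g'⟩

lemma L_pos : 0 < 3 * Real.pi / 4 := by positivity

lemma exp_le_one {u : ℝ} (h : u ≤ -(3 * Real.pi / 4)) : Real.exp u ≤ 1 :=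
  Real.exp_le_one_iff.2 (by linarith [L_pos])

lemma abs_g_le (u : ℝ) : |g u| ≤ 1 + A := by
  rcases le_total u (-(3 * Real.pi / 4)) with h | h
  · rw [g_of_le h, abs_of_pos (Real.exp_pos u)]
    linarith [exp_le_one h, A_pos]
  · rw [g_of_ge h, abs_neg, abs_mul, abs_of_pos A_pos]
    have := Real.abs_sin_le_one u
    nlinarith [A_pos]

lemma abs_g'_le (u : ℝ) : |g' u| ≤ 1 + A := by
  rcases le_total u (-(3 * Real.pi / 4)) with h | h
  · rw [g'_of_le h, abs_of_pos (Real.exp_pos u)]
    linarith [exp_le_one h, A_pos]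
  · rw [g'_of_ge h, abs_neg, abs_mul, abs_of_pos A_pos]
    have := Real.abs_cos_le_one u
    nlinarith [A_pos]

lemma g_pos {u : ℝ} (hu : u < 0) : 0 < g u := by
  rcases le_total u (-(3 * Real.pi / 4)) with h | h
  · rw [g_of_le h]; exact Real.exp_pos u
  · rw [g_of_ge h]
    have : Real.sin u < 0 := Real.sin_neg_of_neg_of_neg_pi_lt hu (by linarith [Real.pi_pos])
    nlinarith [A_pos]

lemma g_zero : g 0 = 0 := by
  rw [g_of_ge (by linarith [L_pos])]; simp

lemma integrableOn_g (a : ℝ) : IntegrableOn g (Iic a) := by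
  have h1 : IntegrableOn g (Iic (-(3 * Real.pi / 4))) :=
    (integrableOn_exp_Iic _).congr_fun (fun x hx => (g_of_le hx).symm) measurableSet_Iic
  rcases le_total a (-(3 * Real.pi / 4)) with h | h
  · exact h1.mono_set (Iic_subset_Iic.2 h)
  · have h2 : IntegrableOn g (Icc (-(3 * Real.pi / 4)) a) :=
      continuous_g.continuousOn.integrableOn_Icc
    rw [← Iic_union_Icc_eq_Iic h]
    exact h1.union h2

lemma G0_of_le {u : ℝ} (h : u ≤ -(3 * Real.pi / 4)) : G0 g u = Real.exp u := by
  unfold G0
  rw [setIntegral_congr_fun measurableSet_Iic (g := Real.exp)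
    (fun x hx => g_of_le (le_trans hx h))]
  exact integral_exp_Iic u

lemma G0_ge {u : ℝ} (h : -(3 * Real.pi / 4) ≤ u) (hu : u ≤ 0) : g u ≤ G0 g u := by
  have h1 : G0 g u = Real.exp (-(3 * Real.pi / 4)) + ∫ s in (-(3 * Real.pi / 4))..u, g s := by
    have := intervalIntegral.integral_Iic_sub_Iic (integrableOn_g (-(3 * Real.pi / 4)))
      (integrableOn_g u)
    have e := G0_of_le (le_refl (-(3 * Real.pi / 4)))
    unfold G0 at e ⊢
    linarith
  have h2 : ∫ s in (-(3 * Real.pi / 4))..u, g s = ∫ s in (-(3 * Real.pi / 4))..u, -(A * Real.sin s) := by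
    refine intervalIntegral.integral_congr fun s hs => ?_
    rw [uIcc_of_le h] at hs
    exact g_of_ge hs.1
  have h3 : ∫ s in (-(3 * Real.pi / 4))..u, -(A * Real.sin s) =
      A * Real.cos u - A * Real.cos (-(3 * Real.pi / 4)) := by
    rw [intervalIntegral.integral_neg, intervalIntegral.integral_const_mul, integral_sin]
    ring
  rw [h1, h2, h3, g_of_ge h]
  have h4 : A * Real.cos (-(3 * Real.pi / 4)) = -Real.exp (-(3 * Real.pi / 4)) := by
    linarith [glue1]
  have h5 : 0 ≤ Real.sin u + Real.cos u + Real.sqrt 2 := by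
    have h6 := Real.abs_sin_le_one u
    have h7 : (Real.sin u + Real.cos u) ^ 2 ≤ Real.sqrt 2 ^ 2 := by
      rw [Real.sq_sqrt (by norm_num)]
      nlinarith [Real.sin_sq_add_cos_sq u, sq_nonneg (Real.sin u - Real.cos u)]
    have h8 := abs_le_of_sq_le_sq' h7 (Real.sqrt_nonneg 2)
    linarith [h8.1]
  have h6 : 2 * Real.exp (-(3 * Real.pi / 4)) = A * Real.sqrt 2 := by linarith [A_mul]
  rw [h4]
  nlinarith [mul_nonneg A_pos.le h5]

lemma f_eq (t : ℝ) : HasDerivAt (fun t => Real.exp (2 * t)) (2 * Real.exp (2 * t)) t := by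
  have := ((hasDerivAt_id t).const_mul 2).exp
  simpa [mul_comm] using this

/-- the hypotheses hold for `f t = e^{2t}` and `g` -/
theorem hypotheses : Hypotheses (fun t => Real.exp (2 * t)) g := by
  have hdf : deriv (fun t => Real.exp (2 * t)) = fun t => 2 * Real.exp (2 * t) :=
    funext fun t => (f_eq t).deriv
  have hint : ∀ M : ℝ, 0 < M → (IntegrableOn (fun t => Real.exp (2 * t) * g (-(M * t))) (Ioi 0) ↔
      2 < M) := by
    intro M hM
    have hc : Continuous (fun t => Real.exp (2 * t) * g (-(M * t))) :=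
      (Real.continuous_exp.comp (continuous_const.mul continuous_id)).mul
        (continuous_g.comp (by fun_prop))
    set T := 3 * Real.pi / 4 / M with hT
    have hTp : 0 < T := div_pos L_pos hM
    have hon : EqOn (fun t => Real.exp (2 * t) * g (-(M * t))) (fun t => Real.exp (-((M - 2) * t)))
        (Ioi T) := by
      intro t ht
      have h1 : 3 * Real.pi / 4 ≤ M * t := by
        have : T < t := ht
        rw [hT, div_lt_iff₀ hM] at this
        linarith
      simp only
      rw [g_of_le (by linarith), ← Real.exp_add]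
      congr 1
      ring
    constructor
    · intro h
      by_contra hle
      rw [not_lt] at hle
      have h1 := (h.mono_set (Ioi_subset_Ioi hTp.le)).congr_fun hon measurableSet_Ioi
      have h2 : IntegrableOn (fun _ : ℝ => (1 : ℝ)) (Ioi T) := by
        refine Integrable.mono' h1 aestronglyMeasurable_const ?_
        filter_upwards [ae_restrict_mem measurableSet_Ioi] with t ht
        rw [norm_one]
        have : T < t := ht
        exact Real.one_le_exp (by nlinarith)
      rw [integrableOn_const_iff] at h2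
      simp at h2
    · intro h
      have h1 : IntegrableOn (fun t => Real.exp (-((M - 2) * t))) (Ioi T) := by
        have := integrableOn_exp_mul_Ioi (a := -(M - 2)) (by linarith) T
        refine this.congr_fun (fun t _ => ?_) measurableSet_Ioi
        simp only
        congr 1
        ring
      have h2 := h1.congr_fun (fun t ht => (hon ht).symm) measurableSet_Ioi
      have h3 : IntegrableOn (fun t => Real.exp (2 * t) * g (-(M * t))) (Ioc 0 T) :=
        (hc.continuousOn.integrableOn_Icc).mono_set Ioc_subset_Icc_self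
      rw [← Ioc_union_Ioi_eq_Ioi hTp.le]
      exact h3.union h2
  have hset : {M : ℝ | 0 < M ∧ IntegrableOn (fun t => Real.exp (2 * t) * g (-(M * t))) (Ioi 0)} =
      Ioi 2 := by
    ext M
    simp only [mem_setOf_eq, mem_Ioi]
    constructor
    · rintro ⟨h1, h2⟩
      exact (hint M h1).1 h2
    · intro h
      exact ⟨by linarith, (hint M (by linarith)).2 h⟩
  refine
    { h1f := by fun_prop
      h1g := contDiff_g
      h1int := ?_
      h1bdd := ⟨2 * (1 + A), fun u => by rw [deriv_g]; linarith [abs_g_le u, abs_g'_le u]⟩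
      h2pos := fun t => Real.exp_pos _
      h2lim := Real.tendsto_exp_atTop.comp (tendsto_id.const_mul_atTop (by norm_num))
      h2zero := g_zero
      h2g := fun u hu => g_pos hu
      h3 := fun t => by rw [hdf]; positivity
      h4 := ⟨3, by norm_num, fun u hu => ?_, (hint 3 (by norm_num)).2 (by norm_num)⟩
      h5a := ?_
      h5b := fun c _ => ⟨Real.exp (-(2 * c)), Real.exp_pos _, fun t _ => ?_⟩
      h67 := ⟨integrableOn_g 0, 2, 1, ?_, ?_, ?_, ?_⟩
      h8 := ⟨Real.pi / 2, by positivity, fun u hu => ?_⟩ }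
  · -- integrability of `t e^{2t}` on the negative half-line
    have h1 : IntegrableOn (fun t => Real.exp t) (Iic 0) := integrableOn_exp_Iic 0
    refine Integrable.mono' h1 (by fun_prop) ?_
    filter_upwards [ae_restrict_mem measurableSet_Iic] with t ht
    have ht0 : t ≤ 0 := ht
    rw [norm_mul, Real.norm_eq_abs, Real.norm_eq_abs, abs_of_nonpos ht0,
      abs_of_pos (Real.exp_pos _)]
    have h2 : -t ≤ Real.exp (-t) := by linarith [Real.add_one_le_exp (-t)]
    calc -t * Real.exp (2 * t) ≤ Real.exp (-t) * Real.exp (2 * t) := by gcongr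
      _ = Real.exp t := by rw [← Real.exp_add]; congr 1; ring
  · rw [deriv_g]
    have h3 : u ≤ -(3 * Real.pi / 4) := by linarith [Real.pi_lt_four]
    rw [g'_of_le h3]
    exact Real.exp_pos u
  · rw [hset, csInf_Ioi]
    intro h
    exact lt_irrefl _ ((hint 2 (by norm_num)).1 h)
  · rw [← Real.exp_sub]
    exact Real.exp_le_exp.2 (by linarith)
  · refine tendsto_const_nhds.congr fun t => ?_
    rw [hdf, mul_div_assoc, div_self (Real.exp_pos _).ne', mul_one]
  · refine tendsto_const_nhds.congr' ?_
    filter_upwards [eventually_le_atBot (-(3 * Real.pi / 4))] with u hu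
    rw [G0_of_le hu, g_of_le hu, div_self (Real.exp_pos _).ne']
  · intro t
    rw [hdf, mul_div_assoc, div_self (Real.exp_pos _).ne', mul_one]
  · intro u hu
    rw [le_div_iff₀ (g_pos hu), one_mul]
    rcases le_total u (-(3 * Real.pi / 4)) with h | h
    · rw [G0_of_le h, g_of_le h]
    · exact G0_ge h hu.le
  · rw [deriv_g, g'_of_ge (by linarith [hu.1, Real.pi_pos])]
    have : 0 ≤ Real.cos u := Real.cos_nonneg_of_mem_Icc ⟨by linarith [hu.1], by
      linarith [hu.2, Real.pi_pos]⟩
    nlinarith [A_pos]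

end Pool.Agent.K4H56.RS
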