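import Pool.Agent.K4H56.RS.G
import Pool.Agent.H314.CS.Dist
import Pool.Agent.H314.CS.Holo

/-! Liouville solutions with small maximum are negative solutions. -/

set_option autoImplicit false

namespace Pool.Agent.K4H56.RS

open MeasureTheory Laplacian InnerProductSpace Filter Topology Set
open Pool.Agent.H314.Dir Pool.Agent.H314.CS

theorem two_of_infty {f : Plane → ℝ} (h : ContDiff ℝ ((⊤ : ℕ∞) : WithTop ℕ∞) f) :
    ContDiff ℝ 2 f := by exact_mod_cast contDiff_infty.1 h 2

theorem laplacian_eq_lap' (f : Plane → ℝ) (x : Plane) : Δ f x = lap f x := by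
  rw [laplacian_eq_iteratedFDeriv_orthonormalBasis f (EuclideanSpace.basisFun (Fin 2) ℝ)]
  unfold lap
  refine Finset.sum_congr rfl fun i _ => ?_
  congr 1
  funext j
  fin_cases j <;> simp

theorem contDiff_cz {n : WithTop ℕ∞} : ContDiff ℝ n (fun x : Plane => cz x) := by
  have h0 : ∀ i : Fin 2, ContDiff ℝ n (fun x : Plane => x i) := fun i =>
    (EuclideanSpace.proj (𝕜 := ℝ) i : Plane →L[ℝ] ℝ).contDiff
  have e : (fun x : Plane => cz x) =
      fun x : Plane => Complex.ofRealCLM (x 0) + Complex.ofRealCLM (x 1) * Complex.I := by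
    funext x
    apply Complex.ext <;> simp [cz]
  rw [e]
  exact (Complex.ofRealCLM.contDiff.comp (h0 0)).add
    ((Complex.ofRealCLM.contDiff.comp (h0 1)).mul contDiff_const)

theorem normSq_cz (x : Plane) : Complex.normSq (cz x) = ‖x‖ ^ 2 := by
  rw [EuclideanSpace.real_norm_sq_eq, Fin.sum_univ_two, Complex.normSq_apply, cz]
  ring

theorem contDiff_normSq_comp {F : ℂ → ℂ} (hF : Differentiable ℂ F) :
    ContDiff ℝ ((⊤ : ℕ∞) : WithTop ℕ∞) (fun x : Plane => Complex.normSq (F (cz x))) := by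
  have h1 : ContDiff ℝ ((⊤ : ℕ∞) : WithTop ℕ∞) F := (hF.contDiff).restrict_scalars ℝ
  have h2 := h1.comp (contDiff_cz (n := ((⊤ : ℕ∞) : WithTop ℕ∞)))
  have hre := Complex.reCLM.contDiff.comp h2
  have him := Complex.imCLM.contDiff.comp h2
  have e : (fun x : Plane => Complex.normSq (F (cz x))) = fun x : Plane =>
      (F (cz x)).re * (F (cz x)).re + (F (cz x)).im * (F (cz x)).im := by
    funext x
    rw [Complex.normSq_apply]
  rw [e]
  exact (hre.mul hre).add (him.mul him)

theorem contDiff_logF {F : ℂ → ℂ} (hF : Differentiable ℂ F) :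
    ContDiff ℝ ((⊤ : ℕ∞) : WithTop ℕ∞)
      (fun x : Plane => Real.log (1 + Complex.normSq (F (cz x)))) :=
  (contDiff_const.add (contDiff_normSq_comp hF)).log fun x => by
    have := Complex.normSq_nonneg (F (cz x))
    positivity

theorem lap_logF {F F' F'' : ℂ → ℂ} (hF : ∀ z, HasDerivAt F (F' z) z)
    (hF' : ∀ z, HasDerivAt F' (F'' z) z) (x : Plane) :
    lap (fun y : Plane => Real.log (1 + Complex.normSq (F (cz y)))) x =
      4 * Complex.normSq (F' (cz x)) / (1 + Complex.normSq (F (cz x))) ^ 2 := by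
  have hD : Differentiable ℂ F := fun z => (hF z).differentiableAt
  have hnn : ∀ z, 0 ≤ Complex.normSq (F z) := fun z => Complex.normSq_nonneg _
  have hpos : 0 < 1 + Complex.normSq (F (cz x)) := by linarith [hnn (cz x)]
  have h := lap_holo hF hF' (g := fun r : ℝ => Real.log (1 + r)) (g' := fun r : ℝ => (1 + r)⁻¹)
    (g'' := fun r : ℝ => -((1 + r) ^ 2)⁻¹) x ?_ ?_ ?_
  · rw [h]
    field_simp
    ring
  · have : ∀ᶠ r in 𝓝 (Complex.normSq (F (cz x))), 0 < 1 + r :=
      (continuous_const.add continuous_id).continuousAt.eventually (lt_mem_nhds hpos)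
    filter_upwards [this] with r hr
    have := ((hasDerivAt_id r).const_add 1).log hr.ne'
    simpa using this
  · have h1 : HasDerivAt (fun r : ℝ => 1 + r) 1 (Complex.normSq (F (cz x))) :=
      (hasDerivAt_id _).const_add 1
    have := h1.inv hpos.ne'
    refine this.congr_deriv ?_
    field_simp
  · exact (two_of_infty (contDiff_logF hD)).contDiffAt

/-- the nonlinearity as a function of `e^u` -/
noncomputable def q (s : ℝ) : ℝ := g (Real.log s)

theorem q_exp (u : ℝ) : q (Real.exp u) = g u := by unfold q; rw [Real.log_exp]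

/-- the Liouville solution -/
noncomputable def uu (N : ℕ) (H : Plane → ℝ) (F : ℂ → ℂ) (x : Plane) : ℝ :=
  2 * (N : ℝ) * Real.log ‖x‖ + (H x - 2 * Real.log (1 + Complex.normSq (F (cz x))))

theorem exp_uu {N : ℕ} {H : Plane → ℝ} {F F' : ℂ → ℂ}
    (hH : ∀ x : Plane, x ≠ 0 → ‖x‖ ^ (2 * N) * Real.exp (H x) = 8 * Complex.normSq (F' (cz x)))
    {x : Plane} (hx : x ≠ 0) : Real.exp (uu N H F x) =
      8 * Complex.normSq (F' (cz x)) / (1 + Complex.normSq (F (cz x))) ^ 2 := by
  have hn : 0 < ‖x‖ := norm_pos_iff.2 hx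
  have hpos : 0 < 1 + Complex.normSq (F (cz x)) := by
    linarith [Complex.normSq_nonneg (F (cz x))]
  unfold uu
  rw [Real.exp_add, Real.exp_sub, ← hH x hx]
  have e1 : Real.exp (2 * (N : ℝ) * Real.log ‖x‖) = ‖x‖ ^ (2 * N) := by
    have : 2 * (N : ℝ) * Real.log ‖x‖ = Real.log (‖x‖ ^ (2 * N)) := by
      rw [Real.log_pow]; push_cast; ring
    rw [this, Real.exp_log (by positivity)]
  have e2 : Real.exp (2 * Real.log (1 + Complex.normSq (F (cz x)))) =
      (1 + Complex.normSq (F (cz x))) ^ 2 := by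
    have : 2 * Real.log (1 + Complex.normSq (F (cz x))) =
        Real.log ((1 + Complex.normSq (F (cz x))) ^ 2) := by
      rw [Real.log_pow]; push_cast; ring
    rw [this, Real.exp_log (by positivity)]
  rw [e1, e2]
  ring

/-- **Main lemma.** Small Liouville solutions are negative solutions. -/
theorem isNegativeSolution {N : ℕ} {H : Plane → ℝ} {F F' F'' : ℂ → ℂ}
    (hF : ∀ z, HasDerivAt F (F' z) z) (hF' : ∀ z, HasDerivAt F' (F'' z) z)
    (hHs : ContDiff ℝ ((⊤ : ℕ∞) : WithTop ℕ∞) H) (hHl : ∀ x, lap H x = 0)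
    (hH : ∀ x : Plane, x ≠ 0 → ‖x‖ ^ (2 * N) * Real.exp (H x) = 8 * Complex.normSq (F' (cz x)))
    (hb : ∀ z : ℂ, 8 * Complex.normSq (F' z) / (1 + Complex.normSq (F z)) ^ 2 ≤
      Real.exp (-(3 * Real.pi / 4))) :
    IsNegativeSolution N (fun _ => 1) q (uu N H F) := by
  have hD : Differentiable ℂ F := fun z => (hF z).differentiableAt
  have hlog := contDiff_logF hD
  set W : Plane → ℝ := fun x => H x - 2 * Real.log (1 + Complex.normSq (F (cz x))) with hWdef
  have hW : ContDiff ℝ ((⊤ : ℕ∞) : WithTop ℕ∞) W := hHs.sub (contDiff_const.mul hlog)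
  have hW2 : ContDiff ℝ 2 W := two_of_infty hW
  have hlog2 : ContDiff ℝ 2 (fun x : Plane => Real.log (1 + Complex.normSq (F (cz x)))) :=
    two_of_infty hlog
  have hH2 : ContDiff ℝ 2 H := two_of_infty hHs
  have hlapW : ∀ x, lap W x =
      -(8 * Complex.normSq (F' (cz x)) / (1 + Complex.normSq (F (cz x))) ^ 2) := by
    intro x
    rw [hWdef, lap_sub hH2.contDiffAt (contDiff_const.mul hlog2).contDiffAt, hHl,
      lap_const_mul 2 hlog2.contDiffAt, lap_logF hF hF']
    ring
  have hcont : Continuous (fun x : Plane => Δ W x) := LL.continuous_laplacian hW2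
  have hle : ∀ x : Plane, x ≠ 0 → uu N H F x ≤ -(3 * Real.pi / 4) := by
    intro x hx
    have h1 := exp_uu (F := F) hH hx
    have h2 := hb (cz x)
    rw [← h1] at h2
    exact Real.exp_le_exp.1 h2
  have hq : ∀ x : Plane, x ≠ 0 → (1 : ℝ) * q (Real.exp (uu N H F x)) = -Δ W x := by
    intro x hx
    rw [q_exp, g_of_le (hle x hx), exp_uu hH hx, laplacian_eq_lap', hlapW]
    ring
  have hae : ∀ᵐ x : Plane, x ≠ 0 := by
    rw [ae_iff]; simp
  have hu : uu N H F = fun x => ∑ k : Fin 1, (fun _ => 2 * (N : ℝ)) k *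
      Real.log ‖x - (fun _ : Fin 1 => (0 : Plane)) k‖ + W x := by
    funext x
    simp [uu, hWdef]
  have hloc : LocallyIntegrable (uu N H F) := by
    have h1 : LocallyIntegrable (fun x : Plane => 2 * (N : ℝ) * Real.log ‖x - 0‖) :=
      (locInt_log 0).smul (2 * (N : ℝ))
    have h2 := h1.add hW.continuous.locallyIntegrable
    refine h2.congr (Eventually.of_forall fun x => ?_)
    simp [uu, hWdef]
  refine ⟨?_, hloc, ?_, ?_, ?_⟩
  · intro x hx
    have hx0 : x ≠ 0 := hx
    refine ContDiffAt.contDiffWithinAt ?_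
    have h1 : ContDiffAt ℝ ((⊤ : ℕ∞) : WithTop ℕ∞) (fun y : Plane => Real.log ‖y‖) x :=
      (contDiffAt_id.norm ℝ hx0).log (norm_ne_zero_iff.2 hx0)
    exact (contDiffAt_const.mul h1).add hW.contDiffAt
  · refine hcont.neg.locallyIntegrable.congr ?_
    filter_upwards [hae] with x hx
    exact (hq x hx).symm
  · intro φ hφ hc
    have hφ2 : ContDiff ℝ 2 φ := two_of_infty hφ
    have h1 := dist_identity (fun _ : Fin 1 => (0 : Plane)) (fun _ => 2 * (N : ℝ)) W φ hW2 hφ2 hc
    have h2 : ∫ x, (1 : ℝ) * q (Real.exp (uu N H F x)) * φ x = ∫ x, -(Δ W x * φ x) := by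
      refine integral_congr_ae ?_
      filter_upwards [hae] with x hx
      rw [hq x hx]
      ring
    rw [h2, integral_neg, hu, h1]
    simp only [Finset.univ_unique, Finset.sum_const, Finset.card_singleton, one_smul]
    ring
  · intro x hx
    linarith [hle x hx, L_pos]

end Pool.Agent.K4H56.RS
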